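import Pool.Agent.Helper77.SGC.Goals

/-!
# SGC-EXPC (MP_a41896_nt): expansion of the auxiliary function
-/

set_option autoImplicit false

namespace Pool.Agent.Helper13.SGC

open WeierstrassCurve Height
open Pool.Agent.Helper29.BL Pool.Agent.Helper92.Ru Pool.Agent.Helper42.SG Pool.Agent.Helper77.SGC

theorem prod21 {A : Type} [CommMonoid A] (f : Fin (2 * 1) → A) :
    ∏ h, f h = f ⟨0, by norm_num⟩ * f ⟨1, by norm_num⟩ := Fin.prod_univ_two f

theorem pull {A ι κ : Type} [CommRing A] (s : Finset κ) (t : Finset ι) (a : ι → A)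
    (F : ι → κ → A) :
    ∑ α ∈ t, a α * ∑ k ∈ s, F α k = ∑ k ∈ s, ∑ α ∈ t, a α * F α k := by
  rw [Finset.sum_comm]
  exact Finset.sum_congr rfl fun α _ => Finset.mul_sum _ _ _

/-- multiplication with a power of `x`. -/
theorem shift_law {K : Type} [Field K] (W : Affine K) (B : AbsoluteValue K ℝ → ℝ) (D e M : ℕ)
    (G : Bool → ℕ → Fin 2 → ℕ → ℕ → K) (hG : Arr W B D e M G) (l : Bool) (m i0 : ℕ)
    (hm : m ≤ M) (hi0 : i0 < 4 ^ e) (A : Type) [CommRing A] [Algebra K A] (x c η : A)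
    (hη : η ^ 2 = Bf (W.map (algebraMap K A)) x * Bf (W.map (algebraMap K A)) c) :
    x ^ i0 * ((Pool.Agent.Helper42.SG.law (W.map (algebraMap K A)) e l x c η).1 ^ (M - m) *
      (Pool.Agent.Helper42.SG.law (W.map (algebraMap K A)) e l x c η).2 ^ m) =
    ∑ μ : Fin 2, ∑ j ∈ Finset.range (N0 M e + 1), ∑ g ∈ Finset.range (2 * M + 1),
      algebraMap K A (sh G l μ j g i0 m) * (η ^ μ.val * x ^ j * c ^ g) := by
  rw [hG.law l m hm A x c η hη, Finset.mul_sum]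
  refine Finset.sum_congr rfl fun μ _ => ?_
  rw [Finset.mul_sum]
  have hsub : (Finset.range (2 * 4 ^ e * M + 1)).map (addRightEmbedding i0)
      ⊆ Finset.range (N0 M e + 1) := by
    intro j hj
    obtain ⟨i, hi, rfl⟩ := Finset.mem_map.1 hj
    rw [Finset.mem_range] at hi ⊢
    rw [addRightEmbedding_apply]
    unfold N0
    omega
  rw [← Finset.sum_subset hsub, Finset.sum_map]
  · refine Finset.sum_congr rfl fun i _ => ?_
    rw [Finset.mul_sum]
    refine Finset.sum_congr rfl fun g _ => ?_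
    rw [addRightEmbedding_apply]
    unfold sh
    rw [if_pos (Nat.le_add_left i0 i), Nat.add_sub_cancel, pow_add]
    ring
  · intro j hj hj'
    refine Finset.sum_eq_zero fun g _ => ?_
    have h0 : sh G l μ j g i0 m = 0 := by
      unfold sh
      split_ifs with hij
      · by_contra hne
        have h1 := (hG.deg l m hm μ (j - i0) g hne).1
        apply hj'
        rw [Finset.mem_map]
        refine ⟨j - i0, Finset.mem_range.2 (by omega), ?_⟩
        rw [addRightEmbedding_apply, Nat.sub_add_cancel hij]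
      · rfl
    rw [h0, map_zero, zero_mul]

theorem two_mul_sums {A : Type} [CommRing A] (n m : ℕ) (a b : Fin 2 → ℕ → ℕ → A)
    (p q : Fin 2 → ℕ → A) (x y : ℕ → A) :
    (∑ μ : Fin 2, ∑ j ∈ Finset.range n, ∑ g ∈ Finset.range m, a μ j g * (p μ j * x g)) *
      (∑ μ : Fin 2, ∑ j ∈ Finset.range n, ∑ g ∈ Finset.range m, b μ j g * (q μ j * y g)) =
    ∑ μ : Fin 2, ∑ μ' : Fin 2, ∑ j ∈ Finset.range n, ∑ j' ∈ Finset.range n,
      (p μ j * q μ' j') * ∑ g ∈ Finset.range m, ∑ g' ∈ Finset.range m,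
        (a μ j g * b μ' j' g') * (x g * y g') := by
  rw [Finset.sum_mul_sum]
  refine Finset.sum_congr rfl fun μ _ => Finset.sum_congr rfl fun μ' _ => ?_
  rw [Finset.sum_mul_sum]
  refine Finset.sum_congr rfl fun j _ => Finset.sum_congr rfl fun j' _ => ?_
  rw [Finset.sum_mul_sum, Finset.mul_sum]
  refine Finset.sum_congr rfl fun g _ => ?_
  rw [Finset.mul_sum]
  refine Finset.sum_congr rfl fun g' _ => ?_
  ring

theorem expc : Pool.Agent.Helper77.SGC.EXPC := by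
  intro K _ W B0 B1 D0 D1 e M G G' hG hG' c A _ _ X Ψ hOn lam
  have h0 := hOn 0 (by norm_num)
  have h1 := hOn 1 (by norm_num)
  have h2 := hOn 2 (by norm_num)
  have h3 := hOn 3 (by norm_num)
  have e0 : (Ψ 0 * Ψ 2) ^ 2 = Bf ((W 0).map (algebraMap K A)) (X 0)
      * Bf ((W 0).map (algebraMap K A)) (X 2) := by
    rw [mul_pow, h0, h2]
    rfl
  have e1 : (Ψ 1 * Ψ 3) ^ 2 = Bf ((W 1).map (algebraMap K A)) (X 1)
      * Bf ((W 1).map (algebraMap K A)) (X 3) := by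
    rw [mul_pow, h1, h3]
    rfl
  unfold Paux
  have hterm : ∀ α : Idx 1 M 1 (fun _ => e),
      algebraMap K A (c α) *
        (∏ h : Fin (2 * 1), X h.val ^ (α.1 h).1.val *
          ((lawV (mapW A W) 1 (fun _ => e) lam X Ψ h.val).1 ^ (M - (α.1 h).2.val) *
            (lawV (mapW A W) 1 (fun _ => e) lam X Ψ h.val).2 ^ (α.1 h).2.val)) *
        ∏ i : Fin 2, X (2 * 1 + i.val) ^ (α.2 i).val
      = algebraMap K A (c α) *
        ∑ μ : Fin 2, ∑ μ' : Fin 2, ∑ j ∈ Finset.range (N0 M e + 1),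
          ∑ j' ∈ Finset.range (N0 M e + 1),
            (((Ψ 0 * Ψ 2) ^ μ.val * X 0 ^ j) * ((Ψ 1 * Ψ 3) ^ μ'.val * X 1 ^ j')) *
              ∑ g ∈ Finset.range (2 * M + 1), ∑ g' ∈ Finset.range (2 * M + 1),
                (algebraMap K A (sh G (lam 0) μ j g (α.1 ⟨0, by norm_num⟩).1.val
                    (α.1 ⟨0, by norm_num⟩).2.val) *
                  algebraMap K A (sh G' (lam 1) μ' j' g' (α.1 ⟨1, by norm_num⟩).1.val
                    (α.1 ⟨1, by norm_num⟩).2.val)) *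
                  (X 2 ^ g * X 3 ^ g') := by
    intro α
    have hlast : ∏ i : Fin 2, X (2 * 1 + i.val) ^ (α.2 i).val = 1 := by
      refine Finset.prod_eq_one fun i _ => ?_
      have hz : (α.2 i).val = 0 := Nat.lt_one_iff.1 (α.2 i).isLt
      rw [hz, pow_zero]
    rw [hlast, mul_one, prod21]
    have s0 := shift_law (W 0) B0 D0 e M G hG (lam 0) (α.1 ⟨0, by norm_num⟩).2.val
      (α.1 ⟨0, by norm_num⟩).1.val (Nat.lt_succ_iff.1 (α.1 ⟨0, by norm_num⟩).2.isLt)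
      (α.1 ⟨0, by norm_num⟩).1.isLt A (X 0) (X 2) (Ψ 0 * Ψ 2) e0
    have s1 := shift_law (W 1) B1 D1 e M G' hG' (lam 1) (α.1 ⟨1, by norm_num⟩).2.val
      (α.1 ⟨1, by norm_num⟩).1.val (Nat.lt_succ_iff.1 (α.1 ⟨1, by norm_num⟩).2.isLt)
      (α.1 ⟨1, by norm_num⟩).1.isLt A (X 1) (X 3) (Ψ 1 * Ψ 3) e1
    have l0 : lawV (mapW A W) 1 (fun _ => e) lam X Ψ 0
        = Pool.Agent.Helper42.SG.law ((W 0).map (algebraMap K A)) e (lam 0) (X 0) (X 2)
          (Ψ 0 * Ψ 2) := rfl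
    have l1 : lawV (mapW A W) 1 (fun _ => e) lam X Ψ 1
        = Pool.Agent.Helper42.SG.law ((W 1).map (algebraMap K A)) e (lam 1) (X 1) (X 3)
          (Ψ 1 * Ψ 3) := rfl
    congr 1
    change (X 0 ^ (α.1 ⟨0, by norm_num⟩).1.val *
          ((lawV (mapW A W) 1 (fun _ => e) lam X Ψ 0).1 ^ (M - (α.1 ⟨0, by norm_num⟩).2.val) *
            (lawV (mapW A W) 1 (fun _ => e) lam X Ψ 0).2 ^ (α.1 ⟨0, by norm_num⟩).2.val)) *
        (X 1 ^ (α.1 ⟨1, by norm_num⟩).1.val *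
          ((lawV (mapW A W) 1 (fun _ => e) lam X Ψ 1).1 ^ (M - (α.1 ⟨1, by norm_num⟩).2.val) *
            (lawV (mapW A W) 1 (fun _ => e) lam X Ψ 1).2 ^ (α.1 ⟨1, by norm_num⟩).2.val)) = _
    rw [l0, l1, s0, s1]
    exact two_mul_sums (N0 M e + 1) (2 * M + 1)
      (fun μ j g => algebraMap K A (sh G (lam 0) μ j g (α.1 ⟨0, by norm_num⟩).1.val
        (α.1 ⟨0, by norm_num⟩).2.val))
      (fun μ' j' g' => algebraMap K A (sh G' (lam 1) μ' j' g' (α.1 ⟨1, by norm_num⟩).1.val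
        (α.1 ⟨1, by norm_num⟩).2.val))
      (fun μ j => (Ψ 0 * Ψ 2) ^ μ.val * X 0 ^ j)
      (fun μ' j' => (Ψ 1 * Ψ 3) ^ μ'.val * X 1 ^ j')
      (fun g => X 2 ^ g) (fun g' => X 3 ^ g')
  rw [Finset.sum_congr rfl fun α _ => hterm α, pull]
  refine Finset.sum_congr rfl fun μ _ => ?_
  rw [pull]
  refine Finset.sum_congr rfl fun μ' _ => ?_
  rw [pull]
  refine Finset.sum_congr rfl fun j _ => ?_
  rw [pull]
  refine Finset.sum_congr rfl fun j' _ => ?_
  have hmono : ∀ Y : Idx 1 M 1 (fun _ => e) → A, ∑ α, algebraMap K A (c α) *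
      ((((Ψ 0 * Ψ 2) ^ μ.val * X 0 ^ j) * ((Ψ 1 * Ψ 3) ^ μ'.val * X 1 ^ j')) * Y α)
      = ((Ψ 0 * Ψ 2) ^ μ.val * (Ψ 1 * Ψ 3) ^ μ'.val * (X 0 ^ j * X 1 ^ j'))
        * ∑ α, algebraMap K A (c α) * Y α := by
    intro Y
    rw [Finset.mul_sum]
    refine Finset.sum_congr rfl fun α _ => ?_
    ring
  rw [hmono]
  congr 1
  rw [pull]
  refine Finset.sum_congr rfl fun g _ => ?_
  rw [pull]
  refine Finset.sum_congr rfl fun g' _ => ?_
  unfold cf
  rw [map_sum, Finset.sum_mul]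
  refine Finset.sum_congr rfl fun α _ => ?_
  rw [map_mul, map_mul]
  ring

end Pool.Agent.Helper13.SGC
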